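import Pool.Agent.W5h1.Hyp.Main

set_option autoImplicit false

namespace Pool.Agent.Results.MP_67060e_co.TripartiteFlats

open Pool.Agent.W5h1.Hyp

/-- For all `d ≥ 5` and `n ≥ 2d + 2` both assertions of the question fail: the generic
hyperconnectivity matroid, which has all members of the family `𝒳_d` as circuits, has a set
whose rank is smaller than its `val`, and there is a maximal `𝒳_d`-matroid other than it. -/
theorem result (d n : ℕ) (hd : 5 ≤ d) (hn : 2 * d + 2 ≤ n) :
    (∃ p : Fin n → Fin d → ℝ, Generic p) ∧
    ∀ p : Fin n → Fin d → ℝ, Generic p →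
      IsXMatroid (coneFamily n d) (hyper p) ∧
      (∃ F ⊆ edges n, (((hyper p).eRk F).toNat : ℤ) < val (coneFamily n d) F) ∧
      ∃ M, IsMaximalXMatroid (coneFamily n d) M ∧ M ≠ hyper p :=
  ⟨exists_generic n d, fun p hp => main d n hd hn p hp⟩

end Pool.Agent.Results.MP_67060e_co.TripartiteFlats
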